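import Mathlib
import Pool.Agent.Lib.helper28.GenGlue

namespace Pool.Agent.Results.MP_23196e_co.InfiniteChi

open Pool.Agent.H28GenPos

/-- Infinite plane sets with no three points on a line and no four points on a circle. -/
def Admissible (A : Set (EuclideanSpace ℝ (Fin 2))) : Prop :=
  A.Infinite ∧
  (∀ x ∈ A, ∀ y ∈ A, ∀ z ∈ A, x ≠ y → x ≠ z → y ≠ z → ¬ Collinear ℝ {x, y, z}) ∧
  (∀ x ∈ A, ∀ y ∈ A, ∀ z ∈ A, ∀ w ∈ A, x ≠ y → x ≠ z → x ≠ w → y ≠ z → y ≠ w → z ≠ w →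
    ¬ EuclideanGeometry.Cospherical ({x, y, z, w} : Set (EuclideanSpace ℝ (Fin 2))))

/-- The integer distance graph on `A`. -/
def intGraph (A : Set (EuclideanSpace ℝ (Fin 2))) : SimpleGraph A where
  Adj x y := x ≠ y ∧ ∃ n : ℤ, dist (x : EuclideanSpace ℝ (Fin 2)) y = (n : ℝ)
  symm := ⟨fun x y h => ⟨h.1.symm, by rw [dist_comm]; exact h.2⟩⟩
  loopless := ⟨fun x h => h.1 rfl⟩

/-- The chromatic number as a cardinal: the least size of a set of colours
admitting a proper colouring. -/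
noncomputable def chi {V : Type} (G : SimpleGraph V) : Cardinal.{0} :=
  sInf {κ : Cardinal.{0} | ∃ K : Type, Cardinal.mk K = κ ∧ Nonempty (G.Coloring K)}

noncomputable def emb (p : ℝ × ℝ) : EuclideanSpace ℝ (Fin 2) := !₂[p.1, p.2]

lemma emb_inj : Function.Injective emb := by
  intro p q h
  have h0 := congrArg (fun v : EuclideanSpace ℝ (Fin 2) => v 0) h
  have h1 := congrArg (fun v : EuclideanSpace ℝ (Fin 2) => v 1) h
  simp only [emb] at h0 h1
  exact Prod.ext (by simpa using h0) (by simpa using h1)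

lemma dist_sq (x y : EuclideanSpace ℝ (Fin 2)) :
    dist x y ^ 2 = (x 0 - y 0) ^ 2 + (x 1 - y 1) ^ 2 := by
  rw [EuclideanSpace.dist_eq, Real.sq_sqrt (by positivity), Fin.sum_univ_two, Real.dist_eq,
    Real.dist_eq, sq_abs, sq_abs]

lemma col_zero {p q r : ℝ × ℝ} (h : Collinear ℝ {emb p, emb q, emb r}) : col p q r = 0 := by
  obtain ⟨v, hv⟩ := (collinear_iff_of_mem (p₀ := emb p) (by simp)).mp h
  obtain ⟨a, ha⟩ := hv (emb q) (by simp)
  obtain ⟨b, hb⟩ := hv (emb r) (by simp)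
  have a0 := congrArg (fun v : EuclideanSpace ℝ (Fin 2) => v 0) ha
  have a1 := congrArg (fun v : EuclideanSpace ℝ (Fin 2) => v 1) ha
  have b0 := congrArg (fun v : EuclideanSpace ℝ (Fin 2) => v 0) hb
  have b1 := congrArg (fun v : EuclideanSpace ℝ (Fin 2) => v 1) hb
  simp [emb] at a0 a1 b0 b1
  rw [col, a0, a1, b0, b1]
  ring

lemma cyc_zero {p q r s : ℝ × ℝ}
    (h : EuclideanGeometry.Cospherical ({emb p, emb q, emb r, emb s} : Set _)) :
    cyc p q r s = 0 := by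
  obtain ⟨c, R, hc⟩ := h
  have e : ∀ t : ℝ × ℝ, dist (emb t) c = R → (t.1 - c 0) ^ 2 + (t.2 - c 1) ^ 2 = R ^ 2 := by
    intro t ht
    rw [← ht, dist_sq]
    simp [emb]
  have hp := e p (hc _ (by simp))
  have hq := e q (hc _ (by simp))
  have hr := e r (hc _ (by simp))
  have hs := e s (hc _ (by simp))
  simp only [cyc, nsq]
  have e1 : col p r s * ((q.1 - p.1) * (p.1 - c 0) + (q.2 - p.2) * (p.2 - c 1))
      - col p q s * ((r.1 - p.1) * (p.1 - c 0) + (r.2 - p.2) * (p.2 - c 1))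
      + col p q r * ((s.1 - p.1) * (p.1 - c 0) + (s.2 - p.2) * (p.2 - c 1)) = 0 := by
    simp only [col]
    ring
  linear_combination (col p r s) * (hq - hp) - (col p q s) * (hr - hp) + (col p q r) * (hs - hp)
    - 2 * e1

lemma upper (A : Set (EuclideanSpace ℝ (Fin 2))) : Nonempty ((intGraph A).Coloring (ℤ × ℤ)) := by
  refine ⟨SimpleGraph.Coloring.mk (fun x => (⌊2 * x.1 0⌋, ⌊2 * x.1 1⌋)) ?_⟩
  rintro x y ⟨hne, n, hn⟩ h
  simp only [Prod.mk.injEq] at h
  have h0 := abs_lt.mp (Int.abs_sub_lt_one_of_floor_eq_floor h.1)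
  have h1 := abs_lt.mp (Int.abs_sub_lt_one_of_floor_eq_floor h.2)
  have h2 := dist_sq x.1 y.1
  have h3 : 0 < dist x.1 y.1 := dist_pos.mpr (fun e => hne (Subtype.ext e))
  rw [hn] at h2 h3
  have h4 : (1 : ℝ) ≤ n := by
    have : 0 < n := by exact_mod_cast h3
    exact_mod_cast this
  nlinarith [h0.1, h0.2, h1.1, h1.2]

theorem result :
    IsGreatest {κ : Cardinal.{0} | ∃ A : Set (EuclideanSpace ℝ (Fin 2)),
      Admissible A ∧ chi (intGraph A) = κ} Cardinal.aleph0 := by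
  have hup : ∀ A : Set (EuclideanSpace ℝ (Fin 2)), chi (intGraph A) ≤ Cardinal.aleph0 :=
    fun A => csInf_le' ⟨ℤ × ℤ, by simp, upper A⟩
  refine ⟨?_, ?_⟩
  · obtain ⟨B, gB, nB⟩ := exists_set
    have key : ∀ k : ℕ, IsEmpty ((intGraph (emb '' B)).Coloring (Fin k)) := by
      intro k
      refine ⟨fun c => ?_⟩
      classical
      obtain ⟨p, hp, q, hq, hpq, ⟨n, hn⟩, he⟩ := nB (k + 1)
        (fun p => if h : p ∈ B then (c ⟨emb p, p, h, rfl⟩).castSucc else 0)
      rw [dif_pos hp, dif_pos hq, Fin.castSucc_inj] at he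
      refine c.valid (v := ⟨emb p, p, hp, rfl⟩) (w := ⟨emb q, q, hq, rfl⟩) ⟨?_, |n|, ?_⟩ he
      · exact fun e => hpq (emb_inj (Subtype.mk.inj e))
      · have h1 := dist_sq (emb p) (emb q)
        have h2 : dist (emb p) (emb q) ^ 2 = (((|n| : ℤ) : ℝ)) ^ 2 := by
          rw [h1, Int.cast_abs, sq_abs, ← hn]
          simp only [emb, nsq]
          simp
          ring
        exact (pow_left_inj₀ dist_nonneg (by positivity) two_ne_zero).mp h2
    refine ⟨emb '' B, ⟨?_, ?_, ?_⟩, le_antisymm (hup _) ?_⟩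
    · intro hfin
      have := hfin.fintype
      exact (key (Fintype.card (emb '' B))).false
        (SimpleGraph.Coloring.mk (Fintype.equivFin _)
          (fun h => (Fintype.equivFin _).injective.ne h.ne))
    · rintro _ ⟨p, hp, rfl⟩ _ ⟨q, hq, rfl⟩ _ ⟨r, hr, rfl⟩ h1 h2 h3 h
      exact gB.1 p hp q hq r hr (fun e => h1 (e ▸ rfl)) (fun e => h2 (e ▸ rfl))
        (fun e => h3 (e ▸ rfl)) (col_zero h)
    · rintro _ ⟨p, hp, rfl⟩ _ ⟨q, hq, rfl⟩ _ ⟨r, hr, rfl⟩ _ ⟨s, hs, rfl⟩ h1 h2 h3 h4 h5 h6 h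
      exact gB.2 p hp q hq r hr s hs (fun e => h1 (e ▸ rfl)) (fun e => h2 (e ▸ rfl))
        (fun e => h3 (e ▸ rfl)) (fun e => h4 (e ▸ rfl)) (fun e => h5 (e ▸ rfl))
        (fun e => h6 (e ▸ rfl)) (cyc_zero h)
    · unfold chi
      refine le_csInf ⟨_, ℤ × ℤ, rfl, upper _⟩ ?_
      rintro κ ⟨K, rfl, ⟨c⟩⟩
      rw [Cardinal.aleph0_le_mk_iff]
      by_contra hK
      rw [not_infinite_iff_finite] at hK
      have := Fintype.ofFinite K
      exact (key (Fintype.card K)).false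
        (SimpleGraph.Coloring.mk (fun v => Fintype.equivFin K (c v))
          (fun h => (Fintype.equivFin K).injective.ne (c.valid h)))
  · rintro κ ⟨A, _, rfl⟩
    exact hup A

end Pool.Agent.Results.MP_23196e_co.InfiniteChi
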